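import Mathlib

set_option autoImplicit false
set_option linter.unusedSectionVars false

/-!
# Over-recurrent sets and functions: two-point extensions, Poisson suspensions, Gaussian and
symmetric infinitely divisible systems
-/

open MeasureTheory ProbabilityTheory Set

namespace Pool.Agent.Results.MP_e8a8db_an.TwoPointGaussianPoisson

/-- `f` is a bounded over-recurrent function of the system `(X, μ, T)`: it is measurable, bounded,
not a.e. constant, and `∫ f · f ∘ T ^ n ≥ (∫ f) ^ 2` for all `n ≥ 1`. -/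
def IsOverRecurrentFun {X : Type*} [MeasurableSpace X] (μ : Measure X) (T : X → X) (f : X → ℝ) :
    Prop :=
  Measurable f ∧ (∃ C : ℝ, ∀ x, |f x| ≤ C) ∧ (¬ ∃ c : ℝ, ∀ᵐ x ∂μ, f x = c) ∧
    ∀ n : ℕ, 1 ≤ n → (∫ x, f x ∂μ) ^ 2 ≤ ∫ x, f x * f (T^[n] x) ∂μ

/-- `A` is an over-recurrent set of the system `(X, μ, T)`: it is measurable, `0 < μ A < 1`, and
`μ (A ∩ T ^ (-n) A) ≥ (μ A) ^ 2` for all `n ≥ 1`. -/
def IsOverRecurrentSet {X : Type*} [MeasurableSpace X] (μ : Measure X) (T : X → X) (A : Set X) :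
    Prop :=
  MeasurableSet A ∧ 0 < μ.real A ∧ μ.real A < 1 ∧
    ∀ n : ℕ, 1 ≤ n → μ.real A ^ 2 ≤ μ.real (A ∩ T^[n] ⁻¹' A)

/-- The two-point extension `(y, z, z') ↦ (S y, α y z, α y z')` of `S`, for the skew product
`(y, z) ↦ (S y, α y z)`. -/
def twoPoint {Y Z : Type*} (S : Y → Y) (α : Y → Z → Z) (p : Y × Z × Z) : Y × Z × Z :=
  (S p.1, α p.1 p.2.1, α p.1 p.2.2)

lemma integral_comp_mp {X X' : Type*} [MeasurableSpace X] [MeasurableSpace X'] {μ : Measure X}
    {μ' : Measure X'} {φ : X → X'} (h : MeasurePreserving φ μ μ') {f : X' → ℝ}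
    (hf : Measurable f) : ∫ x, f (φ x) ∂μ = ∫ x, f x ∂μ' := by
  rw [← h.map_eq, integral_map h.measurable.aemeasurable hf.aestronglyMeasurable]

/-! ### Two-point extensions -/

section TwoPoint

variable {Y Z : Type*} [MeasurableSpace Y] [MeasurableSpace Z]

/-- The cocycle of the iterates. -/
def coc (S : Y → Y) (α : Y → Z → Z) : ℕ → Y → Z → Z
  | 0, _, z => z
  | n + 1, y, z => α (S^[n] y) (coc S α n y z)

omit [MeasurableSpace Y] [MeasurableSpace Z] in
lemma twoPoint_iterate (S : Y → Y) (α : Y → Z → Z) (n : ℕ) (p : Y × Z × Z) :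
    (twoPoint S α)^[n] p = (S^[n] p.1, coc S α n p.1 p.2.1, coc S α n p.1 p.2.2) := by
  induction n with
  | zero => rfl
  | succ n ih =>
    rw [Function.iterate_succ_apply', ih]
    simp only [twoPoint, coc, Function.iterate_succ_apply']

lemma measurable_coc {S : Y → Y} {α : Y → Z → Z} (hS : Measurable S)
    (hα : Measurable fun p : Y × Z => α p.1 p.2) (n : ℕ) :
    Measurable fun p : Y × Z => coc S α n p.1 p.2 := by
  induction n with
  | zero => exact measurable_snd
  | succ n ih => exact hα.comp (((hS.iterate n).comp measurable_fst).prodMk ih)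

omit [MeasurableSpace Y] in
lemma measurePreserving_coc {S : Y → Y} {α : Y → Z → Z} {ν : Measure Z}
    (hα : ∀ y, MeasurePreserving (α y) ν ν) (n : ℕ) (y : Y) :
    MeasurePreserving (coc S α n y) ν ν := by
  induction n with
  | zero => exact MeasurePreserving.id ν
  | succ n ih => exact (hα _).comp ih

lemma measurePreserving_twoPoint {μ : Measure Y} {ν : Measure Z} [IsProbabilityMeasure μ]
    [IsProbabilityMeasure ν] {S : Y → Y} {α : Y → Z → Z} (hS : MeasurePreserving S μ μ)
    (hα : Measurable fun p : Y × Z => α p.1 p.2) (hα' : ∀ y, MeasurePreserving (α y) ν ν) :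
    MeasurePreserving (twoPoint S α) (μ.prod (ν.prod ν)) (μ.prod (ν.prod ν)) := by
  have h1 : Measurable (Function.uncurry fun (y : Y) (w : Z × Z) => (α y w.1, α y w.2)) :=
    (hα.comp (measurable_fst.prodMk (measurable_fst.comp measurable_snd))).prodMk
      (hα.comp (measurable_fst.prodMk (measurable_snd.comp measurable_snd)))
  exact hS.skew_product h1 (Filter.Eventually.of_forall fun y => ((hα' y).prod (hα' y)).map_eq)

lemma integrable_of_bdd {X : Type*} [MeasurableSpace X] {μ : Measure X} [IsFiniteMeasure μ]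
    {f : X → ℝ} (hf : Measurable f) (C : ℝ) (hC : ∀ x, |f x| ≤ C) : Integrable f μ :=
  Integrable.of_bound hf.aestronglyMeasurable C (Filter.Eventually.of_forall hC)

/-- The key computation. -/
lemma integral_two {μ : Measure Y} {ν : Measure Z} [IsProbabilityMeasure μ]
    [IsProbabilityMeasure ν] (u : Y × Z → ℝ) (hu : Measurable u) (C : ℝ) (hC : ∀ x, |u x| ≤ C) :
    ∫ p : Y × Z × Z, u (p.1, p.2.1) * u (p.1, p.2.2) ∂(μ.prod (ν.prod ν)) =
      ∫ y, (∫ z, u (y, z) ∂ν) ^ 2 ∂μ := by
  have h1 : Measurable fun p : Y × Z × Z => u (p.1, p.2.1) * u (p.1, p.2.2) :=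
    (hu.comp (measurable_fst.prodMk (measurable_fst.comp measurable_snd))).mul
      (hu.comp (measurable_fst.prodMk (measurable_snd.comp measurable_snd)))
  rw [integral_prod _ (integrable_of_bdd h1 (C * C) fun p => ?_)]
  · refine integral_congr_ae (Filter.Eventually.of_forall fun y => ?_)
    show ∫ w : Z × Z, u (y, w.1) * u (y, w.2) ∂(ν.prod ν) = (∫ z, u (y, z) ∂ν) ^ 2
    rw [integral_prod_mul (fun z => u (y, z)) (fun z => u (y, z)), sq]
  · rw [abs_mul]
    exact mul_le_mul (hC _) (hC _) (abs_nonneg _) ((abs_nonneg _).trans (hC (p.1, p.2.1)))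

/-- The function of a two-point extension given by a set `B`. -/
noncomputable def pairFun (ν : Measure Z) (B : Set Z) (p : Y × Z × Z) : ℝ :=
  (B.indicator 1 p.2.1 - ν.real B) * (B.indicator 1 p.2.2 - ν.real B)

lemma abs_centred_le {ν : Measure Z} [IsProbabilityMeasure ν] (B : Set Z) (z : Z) :
    |B.indicator (1 : Z → ℝ) z - ν.real B| ≤ 1 := by
  have h0 : 0 ≤ ν.real B := measureReal_nonneg
  have h1 : ν.real B ≤ 1 := measureReal_le_one
  by_cases hz : z ∈ B
  · rw [indicator_of_mem hz, Pi.one_apply, abs_le]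
    constructor <;> linarith
  · rw [indicator_of_notMem hz, abs_le]
    constructor <;> linarith

lemma measurable_centred {ν : Measure Z} {B : Set Z} (hB : MeasurableSet B) :
    Measurable fun z => B.indicator (1 : Z → ℝ) z - ν.real B :=
  (measurable_one.indicator hB).sub_const _

lemma integral_centred {ν : Measure Z} [IsProbabilityMeasure ν] {B : Set Z}
    (hB : MeasurableSet B) : ∫ z, (B.indicator (1 : Z → ℝ) z - ν.real B) ∂ν = 0 := by
  have h : Integrable (B.indicator (1 : Z → ℝ)) ν := (integrable_const (1 : ℝ)).indicator hB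
  rw [integral_sub h (integrable_const _), integral_indicator_one hB]
  simp

variable {μ : Measure Y} {ν : Measure Z} [IsProbabilityMeasure μ] [IsProbabilityMeasure ν]
  {S : Y → Y} {α : Y → Z → Z} {B : Set Z}

lemma measurable_pairFun (hB : MeasurableSet B) :
    Measurable (pairFun (Y := Y) ν B) :=
  ((measurable_centred hB).comp (measurable_fst.comp measurable_snd)).mul
    ((measurable_centred hB).comp (measurable_snd.comp measurable_snd))

lemma abs_pairFun_le (p : Y × Z × Z) : |pairFun ν B p| ≤ 1 := by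
  rw [pairFun, abs_mul]
  exact mul_le_one₀ (abs_centred_le B _) (abs_nonneg _) (abs_centred_le B _)

lemma integral_pairFun (hB : MeasurableSet B) :
    ∫ p, pairFun ν B p ∂(μ.prod (ν.prod ν)) = 0 := by
  have h := integral_two (μ := μ) (ν := ν)
    (fun q : Y × Z => B.indicator (1 : Z → ℝ) q.2 - ν.real B)
    ((measurable_centred hB).comp measurable_snd) 1 (fun q => abs_centred_le B _)
  simp only [integral_centred hB] at h
  simpa [pairFun] using h

lemma corr_pairFun (hS : MeasurePreserving S μ μ)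
    (hα : Measurable fun p : Y × Z => α p.1 p.2) (hB : MeasurableSet B) (n : ℕ) :
    0 ≤ ∫ p, pairFun ν B p * pairFun ν B ((twoPoint S α)^[n] p) ∂(μ.prod (ν.prod ν)) := by
  have h := integral_two (μ := μ) (ν := ν)
    (fun q : Y × Z => (B.indicator (1 : Z → ℝ) q.2 - ν.real B) *
      (B.indicator (1 : Z → ℝ) (coc S α n q.1 q.2) - ν.real B))
    (((measurable_centred hB).comp measurable_snd).mul
      ((measurable_centred hB).comp (measurable_coc hS.measurable hα n))) 1 (fun q => by
        rw [abs_mul]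
        exact mul_le_one₀ (abs_centred_le B _) (abs_nonneg _) (abs_centred_le B _))
  have h2 : ∀ p : Y × Z × Z, pairFun ν B p * pairFun ν B ((twoPoint S α)^[n] p) =
      (B.indicator (1 : Z → ℝ) p.2.1 - ν.real B) *
        (B.indicator (1 : Z → ℝ) (coc S α n p.1 p.2.1) - ν.real B) *
      ((B.indicator (1 : Z → ℝ) p.2.2 - ν.real B) *
        (B.indicator (1 : Z → ℝ) (coc S α n p.1 p.2.2) - ν.real B)) := by
    intro p
    rw [twoPoint_iterate]
    simp only [pairFun]
    ring
  simp only [h2]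
  rw [h]
  exact integral_nonneg fun y => sq_nonneg _

lemma pairFun_not_const (hB : MeasurableSet B) (h0 : 0 < ν.real B) (h1 : ν.real B < 1) :
    ¬ ∃ c : ℝ, ∀ᵐ p ∂(μ.prod (ν.prod ν)), pairFun ν B p = c := by
  rintro ⟨c, hc⟩
  have hc0 : c = 0 := by
    have h := integral_pairFun (μ := μ) (ν := ν) hB
    rw [integral_congr_ae hc] at h
    simpa using h
  subst hc0
  rw [ae_iff] at hc
  have hsub : (univ : Set Y) ×ˢ (B ×ˢ B) ⊆ {p : Y × Z × Z | ¬ pairFun ν B p = 0} := by
    rintro ⟨y, z, z'⟩ ⟨-, hz, hz'⟩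
    show ¬ pairFun ν B (y, z, z') = 0
    simp only [pairFun]
    rw [indicator_of_mem hz, indicator_of_mem hz', Pi.one_apply, Pi.one_apply]
    have : (1 : ℝ) - ν.real B ≠ 0 := by linarith
    exact mul_ne_zero this this
  have h2 := measure_mono_null hsub hc
  rw [Measure.prod_prod, Measure.prod_prod, measure_univ, one_mul, mul_self_eq_zero] at h2
  rw [measureReal_def, h2] at h0
  simp at h0

lemma overRecurrent_pairFun (hS : MeasurePreserving S μ μ)
    (hα : Measurable fun p : Y × Z => α p.1 p.2) (hB : MeasurableSet B) (h0 : 0 < ν.real B)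
    (h1 : ν.real B < 1) :
    IsOverRecurrentFun (μ.prod (ν.prod ν)) (twoPoint S α) (pairFun ν B) := by
  refine ⟨measurable_pairFun hB, ⟨1, abs_pairFun_le⟩, pairFun_not_const hB h0 h1, fun n _ => ?_⟩
  rw [integral_pairFun hB]
  simpa using corr_pairFun hS hα hB n

lemma measurableSet_pair (hB : MeasurableSet B) :
    MeasurableSet {p : Y × Z × Z | p.2.1 ∈ B ↔ p.2.2 ∈ B} :=
  ((measurable_fst.comp measurable_snd) hB).iff ((measurable_snd.comp measurable_snd) hB)

lemma indicator_pair (h : ν.real B = 1 / 2) (p : Y × Z × Z) :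
    {p : Y × Z × Z | p.2.1 ∈ B ↔ p.2.2 ∈ B}.indicator (1 : Y × Z × Z → ℝ) p =
      1 / 2 + 2 * pairFun ν B p := by
  by_cases h1 : p.2.1 ∈ B <;> by_cases h2 : p.2.2 ∈ B
  · rw [indicator_of_mem (show p ∈ {p : Y × Z × Z | p.2.1 ∈ B ↔ p.2.2 ∈ B} from iff_of_true h1 h2)]
    simp only [pairFun, indicator_of_mem h1, indicator_of_mem h2, h, Pi.one_apply]
    norm_num
  · rw [indicator_of_notMem
      (show p ∉ {p : Y × Z × Z | p.2.1 ∈ B ↔ p.2.2 ∈ B} from fun h' => h2 (h'.1 h1))]
    simp only [pairFun, indicator_of_mem h1, indicator_of_notMem h2, h, Pi.one_apply]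
    norm_num
  · rw [indicator_of_notMem
      (show p ∉ {p : Y × Z × Z | p.2.1 ∈ B ↔ p.2.2 ∈ B} from fun h' => h1 (h'.2 h2))]
    simp only [pairFun, indicator_of_notMem h1, indicator_of_mem h2, h, Pi.one_apply]
    norm_num
  · rw [indicator_of_mem (show p ∈ {p : Y × Z × Z | p.2.1 ∈ B ↔ p.2.2 ∈ B} from iff_of_false h1 h2)]
    simp only [pairFun, indicator_of_notMem h1, indicator_of_notMem h2, h, Pi.one_apply]
    norm_num

lemma overRecurrent_pairSet (hS : MeasurePreserving S μ μ)
    (hα : Measurable fun p : Y × Z => α p.1 p.2) (hα' : ∀ y, MeasurePreserving (α y) ν ν)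
    (hB : MeasurableSet B) (h : ν.real B = 1 / 2) :
    IsOverRecurrentSet (μ.prod (ν.prod ν)) (twoPoint S α)
      {p | p.2.1 ∈ B ↔ p.2.2 ∈ B} := by
  set A : Set (Y × Z × Z) := {p | p.2.1 ∈ B ↔ p.2.2 ∈ B} with hA
  have hAm : MeasurableSet A := measurableSet_pair hB
  have hint : Integrable (pairFun ν B) (μ.prod (ν.prod ν)) :=
    integrable_of_bdd (measurable_pairFun hB) 1 abs_pairFun_le
  have hm : (μ.prod (ν.prod ν)).real A = 1 / 2 := by
    rw [← integral_indicator_one hAm]
    simp only [hA, indicator_pair h]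
    rw [integral_add (integrable_const _) (hint.const_mul 2), integral_const_mul,
      integral_pairFun hB]
    simp
  refine ⟨hAm, by rw [hm]; norm_num, by rw [hm]; norm_num, fun n _ => ?_⟩
  have hTn := (measurePreserving_twoPoint hS hα hα').iterate n
  have hmn : Measurable (pairFun (Y := Y) ν B) := measurable_pairFun hB
  have hint2 : Integrable (fun p => pairFun ν B ((twoPoint S α)^[n] p)) (μ.prod (ν.prod ν)) :=
    integrable_of_bdd (hmn.comp hTn.measurable) 1 fun p => abs_pairFun_le _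
  have hint3 : Integrable (fun p => pairFun ν B p * pairFun ν B ((twoPoint S α)^[n] p))
      (μ.prod (ν.prod ν)) :=
    integrable_of_bdd (hmn.mul (hmn.comp hTn.measurable)) 1 fun p => by
      rw [abs_mul]
      exact mul_le_one₀ (abs_pairFun_le _) (abs_nonneg _) (abs_pairFun_le _)
  have h0 : ∫ p, pairFun ν B ((twoPoint S α)^[n] p) ∂(μ.prod (ν.prod ν)) = 0 := by
    rw [integral_comp_mp hTn hmn, integral_pairFun hB]
  have h5 : ∀ p, (A ∩ (twoPoint S α)^[n] ⁻¹' A).indicator (1 : Y × Z × Z → ℝ) p =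
      1 / 4 + pairFun ν B p + pairFun ν B ((twoPoint S α)^[n] p) +
        4 * (pairFun ν B p * pairFun ν B ((twoPoint S α)^[n] p)) := by
    intro p
    have e1 : (A ∩ (twoPoint S α)^[n] ⁻¹' A).indicator (1 : Y × Z × Z → ℝ) p =
        A.indicator (1 : Y × Z × Z → ℝ) p *
          A.indicator (1 : Y × Z × Z → ℝ) ((twoPoint S α)^[n] p) := by
      by_cases a1 : p ∈ A <;> by_cases a2 : (twoPoint S α)^[n] p ∈ A <;>
        simp [indicator, a1, a2]
    rw [e1, hA, indicator_pair h, indicator_pair h]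
    ring
  rw [← integral_indicator_one (hAm.inter (hTn.measurable hAm))]
  simp only [h5]
  have i1 : Integrable (fun p : Y × Z × Z => 1 / 4 + pairFun ν B p) (μ.prod (ν.prod ν)) :=
    (integrable_const _).add hint
  have i2 : Integrable (fun p : Y × Z × Z => 1 / 4 + pairFun ν B p +
      pairFun ν B ((twoPoint S α)^[n] p)) (μ.prod (ν.prod ν)) := i1.add hint2
  rw [integral_add i2 (hint3.const_mul 4), integral_add i1 hint2,
    integral_add (integrable_const _) hint, integral_const_mul, integral_pairFun hB, h0, hm]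
  have h6 := corr_pairFun (μ := μ) (ν := ν) hS hα hB n
  simp
  linarith

end TwoPoint

/-! ### Poisson suspensions -/

section Poisson

variable {X E : Type*} [MeasurableSpace X] [MeasurableSpace E]

lemma poisson_iterate {R : E → E} (hR : Measurable R) {T : X → X} {N : X → Measure E}
    (hN : ∀ x, ∀ C : Set E, MeasurableSet C → N (T x) C = N x (R ⁻¹' C)) (n : ℕ) (x : X)
    {C : Set E} (hC : MeasurableSet C) : N (T^[n] x) C = N x (R^[n] ⁻¹' C) := by
  induction n generalizing C with
  | zero => rfl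
  | succ n ih =>
    rw [Function.iterate_succ_apply', hN _ C hC, ih (hR hC), ← preimage_comp,
      ← Function.iterate_succ']

lemma overRecurrent_void {μ : Measure X} [IsProbabilityMeasure μ] {T : X → X}
    {ρ : Measure E} {R : E → E} (hR : MeasurePreserving R ρ ρ) {N : X → Measure E}
    (hNm : ∀ C : Set E, MeasurableSet C → Measurable fun x => N x C)
    (hN : ∀ x, ∀ C : Set E, MeasurableSet C → N (T x) C = N x (R ⁻¹' C))
    (hvoid : ∀ C : Set E, MeasurableSet C → ρ C ≠ ⊤ → μ.real {x | N x C = 0} = Real.exp (-ρ.real C))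
    {B : Set E} (hB : MeasurableSet B) (h0 : 0 < ρ B) (h1 : ρ B ≠ ⊤) :
    IsOverRecurrentSet μ T {x | N x B = 0} := by
  have hpos : 0 < ρ.real B := ENNReal.toReal_pos h0.ne' h1
  refine ⟨hNm B hB (measurableSet_singleton 0), ?_, ?_, fun n _ => ?_⟩
  · rw [hvoid B hB h1]
    exact Real.exp_pos _
  · rw [hvoid B hB h1, Real.exp_lt_one_iff]
    linarith
  · have hBn : MeasurableSet (R^[n] ⁻¹' B) := (hR.iterate n).measurable hB
    have hρ : ρ (R^[n] ⁻¹' B) = ρ B := (hR.iterate n).measure_preimage hB.nullMeasurableSet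
    have hset : {x | N x B = 0} ∩ T^[n] ⁻¹' {x | N x B = 0} =
        {x | N x (B ∪ R^[n] ⁻¹' B) = 0} := by
      ext x
      show N x B = 0 ∧ N (T^[n] x) B = 0 ↔ N x (B ∪ R^[n] ⁻¹' B) = 0
      rw [poisson_iterate hR.measurable hN n x hB, measure_union_null_iff]
    have hfin : ρ (B ∪ R^[n] ⁻¹' B) ≠ ⊤ :=
      (measure_union_lt_top h1.lt_top (by rw [hρ]; exact h1.lt_top)).ne
    rw [hset, hvoid _ (hB.union hBn) hfin, hvoid B hB h1, sq, ← Real.exp_add]
    apply Real.exp_le_exp.2
    have h2 : ρ.real (B ∪ R^[n] ⁻¹' B) ≤ ρ.real B + ρ.real (R^[n] ⁻¹' B) :=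
      measureReal_union_le _ _
    have h3 : ρ.real (R^[n] ⁻¹' B) = ρ.real B := by
      rw [measureReal_def, measureReal_def, hρ]
    linarith

end Poisson

/-! ### Gaussian systems -/

section Gaussian

variable {X : Type*} [MeasurableSpace X] {μ : Measure X} [IsProbabilityMeasure μ]

lemma integral_cos {W : X → ℝ} (hW : HasGaussianLaw W μ) (c : ℝ) (hc : ∫ x, W x ∂μ = c) :
    ∫ x, Real.cos (W x - c) ∂μ = Real.exp (-Var[W; μ] / 2) := by
  have h1 : charFun (μ.map W) 1 = Complex.exp (c * Complex.I - Var[W; μ] / 2) := by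
    rw [hW.map_eq_gaussianReal, charFun_gaussianReal]
    congr 1
    rw [hc, Real.coe_toNNReal _ (variance_nonneg _ _)]
    push_cast
    ring
  rw [charFun_apply, integral_map hW.aemeasurable (by fun_prop)] at h1
  have h2 : ∫ x, Complex.exp ((W x - c : ℝ) * Complex.I) ∂μ =
      Complex.exp (-Var[W; μ] / 2) := by
    have h3 : ∀ x, Complex.exp ((W x - c : ℝ) * Complex.I) =
        Complex.exp ((inner ℝ (W x) 1 : ℝ) * Complex.I) * Complex.exp (-(c * Complex.I)) := by
      intro x
      rw [← Complex.exp_add]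
      congr 1
      simp
      ring
    simp only [h3]
    rw [integral_mul_const, h1, ← Complex.exp_add]
    congr 1
    ring
  have hint : Integrable (fun x => Complex.exp ((W x - c : ℝ) * Complex.I)) μ := by
    refine Integrable.of_bound (C := 1) ?_ (Filter.Eventually.of_forall fun x => ?_)
    · exact (Complex.measurable_exp.comp_aemeasurable
        ((Complex.measurable_ofReal.comp_aemeasurable
          (hW.aemeasurable.sub_const c)).mul_const _)).aestronglyMeasurable
    · rw [Complex.norm_exp_ofReal_mul_I]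
  have h4 := congrArg Complex.re h2
  rw [← Complex.reCLM_apply, ← Complex.reCLM.integral_comp_comm hint] at h4
  simp only [Complex.reCLM_apply, Complex.exp_ofReal_mul_I_re] at h4
  rw [h4]
  have h5 : (-Var[W; μ] / 2 : ℂ) = ((-Var[W; μ] / 2 : ℝ) : ℂ) := by push_cast; ring
  rw [h5, Complex.exp_ofReal_re]

lemma corr_cos {U V : X → ℝ} (h : HasGaussianLaw (fun x => (U x, V x)) μ) (c : ℝ)
    (hU : ∫ x, U x ∂μ = c) (hV : ∫ x, V x ∂μ = c) (hUV : Var[V; μ] = Var[U; μ]) :
    Real.exp (-Var[U; μ]) ≤ ∫ x, Real.cos (U x - c) * Real.cos (V x - c) ∂μ := by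
  have hU' := h.fst
  have hV' := h.snd
  have hadd : HasGaussianLaw (fun x => U x + V x) μ := h.fun_add
  have hsub : HasGaussianLaw (fun x => U x - V x) μ := h.fun_sub
  have e1 := integral_cos hadd (2 * c) (by
    rw [integral_add hU'.integrable hV'.integrable, hU, hV]; ring)
  have e2 := integral_cos hsub 0 (by
    rw [integral_sub hU'.integrable hV'.integrable, hU, hV]; ring)
  have hv : Var[fun x => U x + V x; μ] + Var[fun x => U x - V x; μ] = 4 * Var[U; μ] := by
    have h1 := variance_fun_add hU'.memLp_two hV'.memLp_two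
    have h2 := variance_fun_sub hU'.memLp_two hV'.memLp_two
    rw [h1, h2, hUV]
    ring
  have hcm : ∀ W : X → ℝ, HasGaussianLaw W μ → ∀ a : ℝ,
      Integrable (fun x => Real.cos (W x - a)) μ := by
    intro W hW a
    refine Integrable.of_bound (C := 1) ?_ (Filter.Eventually.of_forall fun x => ?_)
    · exact (Real.measurable_cos.comp_aemeasurable
        (hW.aemeasurable.sub_const a)).aestronglyMeasurable
    · exact Real.abs_cos_le_one _
  have h3 : ∀ x, Real.cos (U x - c) * Real.cos (V x - c) =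
      1 / 2 * Real.cos (U x + V x - 2 * c) + 1 / 2 * Real.cos (U x - V x - 0) := by
    intro x
    have a1 : U x + V x - 2 * c = (U x - c) + (V x - c) := by ring
    have a2 : U x - V x - 0 = (U x - c) - (V x - c) := by ring
    rw [a1, a2, Real.cos_add (U x - c) (V x - c), Real.cos_sub (U x - c) (V x - c)]
    ring
  simp only [h3]
  rw [integral_add ((hcm _ hadd _).const_mul _) ((hcm _ hsub _).const_mul _),
    integral_const_mul, integral_const_mul, e1, e2]
  set a := Real.exp (-Var[fun x => U x + V x; μ] / 4) with ha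
  set b := Real.exp (-Var[fun x => U x - V x; μ] / 4) with hb
  have ha2 : Real.exp (-Var[fun x => U x + V x; μ] / 2) = a * a := by
    rw [ha, ← Real.exp_add]; congr 1; ring
  have hb2 : Real.exp (-Var[fun x => U x - V x; μ] / 2) = b * b := by
    rw [hb, ← Real.exp_add]; congr 1; ring
  have hab : Real.exp (-Var[U; μ]) = a * b := by
    rw [ha, hb, ← Real.exp_add]; congr 1; linarith
  rw [ha2, hb2, hab]
  nlinarith [sq_nonneg (a - b)]

lemma overRecurrent_cos {T : X → X} (hT : MeasurePreserving T μ μ) {g : X → ℝ}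
    (hg : Measurable g) (hgc : ¬ ∃ c : ℝ, ∀ᵐ x ∂μ, g x = c)
    (hG : ∀ n : ℕ, 1 ≤ n → HasGaussianLaw (fun x => (g x, g (T^[n] x))) μ) :
    IsOverRecurrentFun μ T fun x => Real.cos (g x - ∫ y, g y ∂μ) := by
  set c := ∫ y, g y ∂μ with hc
  have hg1 : HasGaussianLaw g μ := (hG 1 le_rfl).fst
  have hmeas : Measurable fun x => Real.cos (g x - c) := Real.measurable_cos.comp (hg.sub_const c)
  have hint : ∀ W : X → ℝ, HasGaussianLaw W μ → ∀ a : ℝ,
      Integrable (fun x => Real.cos (W x - a)) μ := by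
    intro W hW a
    refine Integrable.of_bound (C := 1) ?_ (Filter.Eventually.of_forall fun x => ?_)
    · exact (Real.measurable_cos.comp_aemeasurable
        (hW.aemeasurable.sub_const a)).aestronglyMeasurable
    · exact Real.abs_cos_le_one _
  have hcos : ∫ x, Real.cos (g x - c) ∂μ = Real.exp (-Var[g; μ] / 2) := integral_cos hg1 c rfl
  have hsq : (∫ x, Real.cos (g x - c) ∂μ) ^ 2 = Real.exp (-Var[g; μ]) := by
    rw [hcos, sq, ← Real.exp_add]; congr 1; ring
  refine ⟨hmeas, ⟨1, fun x => Real.abs_cos_le_one _⟩, ?_, fun n hn => ?_⟩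
  · rintro ⟨k, hk⟩
    -- the variance vanishes
    have e1 : ∫ x, Real.cos (g x - c) ∂μ = k := by
      rw [integral_congr_ae hk]; simp
    have e2 : ∫ x, Real.cos (g x - c) * Real.cos (g x - c) ∂μ = k * k := by
      rw [integral_congr_ae (hk.mono fun x hx => by
        have hx' : Real.cos (g x - c) = k := hx
        show Real.cos (g x - c) * Real.cos (g x - c) = k * k
        rw [hx'])]
      simp
    have h2g : HasGaussianLaw (fun x => 2 * g x) μ := by
      have := hg1.fun_smul 2
      simpa [smul_eq_mul] using this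
    have e3 := integral_cos h2g (2 * c) (by rw [integral_const_mul])
    have e4 : ∀ x, Real.cos (g x - c) * Real.cos (g x - c) =
        1 / 2 + 1 / 2 * Real.cos (2 * g x - 2 * c) := by
      intro x
      have : 2 * g x - 2 * c = 2 * (g x - c) := by ring
      rw [this, Real.cos_two_mul]
      ring
    simp only [e4] at e2
    rw [integral_add (integrable_const _) ((hint _ h2g _).const_mul _), integral_const_mul, e3,
      variance_const_mul] at e2
    have e5 : k * k = Real.exp (-Var[g; μ]) := by rw [← e1, ← sq, hsq]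
    have e6 : Real.exp (-(2 ^ 2 * Var[g; μ]) / 2) = Real.exp (-Var[g; μ]) ^ 2 := by
      rw [← Real.exp_nat_mul]; congr 1; push_cast; ring
    rw [e5, e6] at e2
    have e7 : (1 - Real.exp (-Var[g; μ])) ^ 2 = 0 := by
      simp at e2
      nlinarith
    have e8 : Real.exp (-Var[g; μ]) = 1 := by
      have := pow_eq_zero_iff (two_ne_zero) |>.1 e7
      linarith
    have e9 : Var[g; μ] = 0 := by
      have := Real.exp_eq_one_iff _ |>.1 e8
      linarith
    apply hgc
    refine ⟨c, ?_⟩
    exact ae_eq_integral_of_variance_eq_zero hg1.memLp_two e9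
  · rw [hsq]
    have hTn := hT.iterate n
    have hmap : ∫ x, g (T^[n] x) ∂μ = c := integral_comp_mp hTn hg
    have hvar : Var[fun x => g (T^[n] x); μ] = Var[g; μ] := by
      have h5 := variance_map (X := g) (μ := μ) (Y := T^[n]) (by
        rw [hTn.map_eq]; exact hg.aemeasurable) hTn.measurable.aemeasurable
      rw [hTn.map_eq] at h5
      exact h5.symm
    exact corr_cos (hG n hn) c rfl hmap hvar

end Gaussian

/-! ### Symmetric infinitely divisible processes -/

section SymmID

variable {X : Type*} [MeasurableSpace X] {μ : Measure X} [IsProbabilityMeasure μ]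

lemma integrable_levy {Q : Measure (ℝ × ℝ)}
    (hQ : Integrable (fun p : ℝ × ℝ => min 1 (p.1 ^ 2 + p.2 ^ 2)) Q) (s t : ℝ) :
    Integrable (fun p : ℝ × ℝ => 1 - Real.cos (s * p.1 + t * p.2)) Q := by
  refine Integrable.mono' (hQ.const_mul (2 + (s ^ 2 + t ^ 2) / 2)) (by fun_prop)
    (Filter.Eventually.of_forall fun p => ?_)
  have h1 : 0 ≤ 1 - Real.cos (s * p.1 + t * p.2) := by
    have := Real.cos_le_one (s * p.1 + t * p.2)
    linarith
  rw [Real.norm_of_nonneg h1]
  have h2 : 1 - Real.cos (s * p.1 + t * p.2) ≤ 2 := by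
    have := Real.neg_one_le_cos (s * p.1 + t * p.2)
    linarith
  have h3 : 1 - Real.cos (s * p.1 + t * p.2) ≤ (s * p.1 + t * p.2) ^ 2 / 2 := by
    have := Real.one_sub_sq_div_two_le_cos (x := s * p.1 + t * p.2)
    linarith
  have h4 : (s * p.1 + t * p.2) ^ 2 ≤ (s ^ 2 + t ^ 2) * (p.1 ^ 2 + p.2 ^ 2) := by
    nlinarith [sq_nonneg (s * p.2 - t * p.1)]
  rcases le_total 1 (p.1 ^ 2 + p.2 ^ 2) with h | h
  · rw [min_eq_left h]
    nlinarith [sq_nonneg s, sq_nonneg t]
  · rw [min_eq_right h]
    nlinarith [sq_nonneg s, sq_nonneg t, sq_nonneg p.1, sq_nonneg p.2]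

/-- The pair `(U, V)` is symmetric and infinitely divisible: by the formula of Lévy and Khinchin,
its characteristic function is real, equal to
`exp (- (a s² + 2 b s t + c t²) / 2 - ∫ (1 - cos (s u + t v)) dQ (u, v))` with a nonnegative
quadratic form (the covariance of the Gaussian part) and a Lévy measure `Q`. -/
def IsSymmID (μ : Measure X) (U V : X → ℝ) : Prop :=
  ∃ (a b c : ℝ) (Q : Measure (ℝ × ℝ)), 0 ≤ a ∧ 0 ≤ c ∧ b ^ 2 ≤ a * c ∧
    Integrable (fun p : ℝ × ℝ => min 1 (p.1 ^ 2 + p.2 ^ 2)) Q ∧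
    ∀ s t : ℝ,
      ∫ x, Real.cos (s * U x + t * V x) ∂μ =
        Real.exp (-(a * s ^ 2 + 2 * b * s * t + c * t ^ 2) / 2 -
          ∫ p, (1 - Real.cos (s * p.1 + t * p.2)) ∂Q) ∧
      ∫ x, Real.sin (s * U x + t * V x) ∂μ = 0

lemma corr_symmID {U V : X → ℝ} (hU : Measurable U) (hV : Measurable V)
    (h : IsSymmID μ U V) (t : ℝ)
    (hUV : ∫ x, Real.cos (t * V x) ∂μ = ∫ x, Real.cos (t * U x) ∂μ) :
    (∫ x, Real.cos (t * U x) ∂μ) ^ 2 ≤ ∫ x, Real.cos (t * U x) * Real.cos (t * V x) ∂μ := by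
  obtain ⟨a, b, c, Q, -, -, -, hQ, h⟩ := h
  have e10 := (h t 0).1
  have e01 := (h 0 t).1
  have e11 := (h t t).1
  have e1m := (h t (-t)).1
  simp only [zero_mul, add_zero, zero_add, mul_zero] at e10 e01
  have hint : ∀ W : X → ℝ, Measurable W → Integrable (fun x => Real.cos (W x)) μ :=
    fun W hW => integrable_of_bdd (Real.measurable_cos.comp hW) 1 fun x => Real.abs_cos_le_one _
  have h3 : ∀ x, Real.cos (t * U x) * Real.cos (t * V x) =
      1 / 2 * Real.cos (t * U x + t * V x) + 1 / 2 * Real.cos (t * U x + -t * V x) := by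
    intro x
    have a2 : t * U x + -t * V x = t * U x - t * V x := by ring
    rw [a2, Real.cos_add (t * U x) (t * V x), Real.cos_sub (t * U x) (t * V x)]
    ring
  simp only [h3]
  rw [integral_add ((hint _ (by fun_prop)).const_mul _) ((hint _ (by fun_prop)).const_mul _),
    integral_const_mul, integral_const_mul, e11, e1m]
  set I10 := ∫ p : ℝ × ℝ, (1 - Real.cos (t * p.1)) ∂Q with hI10
  set I01 := ∫ p : ℝ × ℝ, (1 - Real.cos (t * p.2)) ∂Q with hI01
  set I11 := ∫ p : ℝ × ℝ, (1 - Real.cos (t * p.1 + t * p.2)) ∂Q with hI11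
  set I1m := ∫ p : ℝ × ℝ, (1 - Real.cos (t * p.1 + -t * p.2)) ∂Q with hI1m
  have i10 : Integrable (fun p : ℝ × ℝ => 1 - Real.cos (t * p.1)) Q := by
    simpa using integrable_levy hQ t 0
  have i01 : Integrable (fun p : ℝ × ℝ => 1 - Real.cos (t * p.2)) Q := by
    simpa using integrable_levy hQ 0 t
  have hI : I11 + I1m ≤ 2 * I10 + 2 * I01 := by
    rw [hI11, hI1m, hI10, hI01, ← integral_add (integrable_levy hQ t t) (integrable_levy hQ t (-t)),
      ← integral_const_mul, ← integral_const_mul, ← integral_add (i10.const_mul 2)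
        (i01.const_mul 2)]
    refine integral_mono ((integrable_levy hQ t t).add (integrable_levy hQ t (-t)))
      ((i10.const_mul 2).add (i01.const_mul 2)) fun p => ?_
    have a2 : t * p.1 + -t * p.2 = t * p.1 - t * p.2 := by ring
    show (1 - Real.cos (t * p.1 + t * p.2)) + (1 - Real.cos (t * p.1 + -t * p.2)) ≤
      2 * (1 - Real.cos (t * p.1)) + 2 * (1 - Real.cos (t * p.2))
    rw [a2, Real.cos_add (t * p.1) (t * p.2), Real.cos_sub (t * p.1) (t * p.2)]
    have b1 := Real.cos_le_one (t * p.1)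
    have b2 := Real.cos_le_one (t * p.2)
    nlinarith
  rw [e01, e10] at hUV
  have hψ := Real.exp_injective hUV
  rw [e10]
  set A := Real.exp ((-(a * t ^ 2 + 2 * b * t * t + c * t ^ 2) / 2 - I11) / 2) with hA
  set B := Real.exp ((-(a * t ^ 2 + 2 * b * t * (-t) + c * (-t) ^ 2) / 2 - I1m) / 2) with hB
  have hA2 : Real.exp (-(a * t ^ 2 + 2 * b * t * t + c * t ^ 2) / 2 - I11) = A * A := by
    rw [hA, ← Real.exp_add]; congr 1; ring
  have hB2 : Real.exp (-(a * t ^ 2 + 2 * b * t * (-t) + c * (-t) ^ 2) / 2 - I1m) = B * B := by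
    rw [hB, ← Real.exp_add]; congr 1; ring
  calc _ ≤ A * B := by
        rw [hA, hB, ← Real.exp_add, sq, ← Real.exp_add]
        apply Real.exp_le_exp.2
        nlinarith
    _ ≤ _ := by
        rw [hA2, hB2]
        nlinarith [sq_nonneg (A - B)]

lemma const_eq_one {g : X → ℝ} (hpos : ∀ t : ℝ, 0 < ∫ x, Real.cos (t * g x) ∂μ) {t c : ℝ}
    (h : ∀ᵐ x ∂μ, Real.cos (t * g x) = c) : c = 1 := by
  have hc : 0 < c := by
    have := hpos t
    rw [integral_congr_ae h] at this
    simpa using this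
  obtain ⟨x, hx⟩ := h.exists
  have hc1 : c ≤ 1 := hx ▸ Real.cos_le_one _
  by_contra hne
  have hlt : c < 1 := lt_of_le_of_ne hc1 hne
  set θ := Real.arccos c with hθ
  have hθ0 : 0 < θ := Real.arccos_pos.2 hlt
  have hθ1 : θ < Real.pi / 2 := Real.arccos_lt_pi_div_two.2 hc
  have hcθ : Real.cos θ = c := Real.cos_arccos (by linarith) hc1
  have hk : ∀ k : ℕ, ∀ᵐ x ∂μ, Real.cos (2 ^ k * t * g x) = Real.cos (2 ^ k * θ) := by
    intro k
    induction k with
    | zero => simpa [hcθ] using h
    | succ k ih =>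
      filter_upwards [ih] with x hx
      have e1 : (2 : ℝ) ^ (k + 1) * t * g x = 2 * (2 ^ k * t * g x) := by ring
      have e2 : (2 : ℝ) ^ (k + 1) * θ = 2 * (2 ^ k * θ) := by ring
      rw [e1, e2, Real.cos_two_mul, Real.cos_two_mul, hx]
  have hpos' : ∀ k : ℕ, 0 < Real.cos (2 ^ k * θ) := by
    intro k
    have := hpos (2 ^ k * t)
    rw [integral_congr_ae (hk k)] at this
    simpa using this
  have hlt' : ∀ k : ℕ, 2 ^ k * θ < Real.pi / 2 := by
    intro k
    induction k with
    | zero => simpa using hθ1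
    | succ k ih =>
      by_contra hge
      rw [not_lt] at hge
      have e2 : (2 : ℝ) ^ (k + 1) * θ = 2 * (2 ^ k * θ) := by ring
      have := Real.cos_nonpos_of_pi_div_two_le_of_le hge (by rw [e2]; linarith [Real.pi_pos])
      linarith [hpos' (k + 1)]
  obtain ⟨k, hk2⟩ := pow_unbounded_of_one_lt (Real.pi / 2 / θ) (one_lt_two (α := ℝ))
  rw [div_lt_iff₀ hθ0] at hk2
  linarith [hlt' k]

lemma overRecurrent_symmID {T : X → X} (hT : MeasurePreserving T μ μ) {g : X → ℝ}
    (hg : Measurable g) (hg0 : ¬ ∀ᵐ x ∂μ, g x = 0)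
    (h : ∀ n : ℕ, 1 ≤ n → IsSymmID μ g fun x => g (T^[n] x)) :
    ∃ t : ℝ, 0 < t ∧ IsOverRecurrentFun μ T fun x => Real.cos (t * g x) := by
  have hpos : ∀ t : ℝ, 0 < ∫ x, Real.cos (t * g x) ∂μ := by
    intro t
    obtain ⟨a, b, c, Q, -, -, -, -, h1⟩ := h 1 le_rfl
    have := (h1 t 0).1
    simp only [zero_mul, add_zero] at this
    rw [this]
    exact Real.exp_pos _
  obtain ⟨k, hk⟩ : ∃ k : ℕ, ¬ ∀ᵐ x ∂μ, Real.cos (1 / ((k : ℝ) + 1) * g x) = 1 := by
    by_contra hcon
    rw [not_exists] at hcon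
    simp only [not_not] at hcon
    apply hg0
    rw [← ae_all_iff] at hcon
    filter_upwards [hcon] with x hx
    obtain ⟨k, hk⟩ := exists_nat_gt |g x|
    have h1 := hx k
    have hk0 : (0 : ℝ) < (k : ℝ) + 1 := by positivity
    have h2 : |1 / ((k : ℝ) + 1) * g x| < 1 := by
      rw [abs_mul, abs_of_pos (by positivity), one_div, inv_mul_lt_iff₀ hk0]
      linarith
    have h3 : 1 / ((k : ℝ) + 1) * g x = 0 := by
      rw [abs_lt] at h2
      exact (Real.cos_eq_one_iff_of_lt_of_lt (by linarith [Real.pi_gt_three])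
        (by linarith [Real.pi_gt_three])).1 h1
    have h4 : (1 : ℝ) / ((k : ℝ) + 1) ≠ 0 := by positivity
    exact (mul_eq_zero.1 h3).resolve_left h4
  refine ⟨1 / ((k : ℝ) + 1), by positivity, Real.measurable_cos.comp (hg.const_mul _),
    ⟨1, fun x => Real.abs_cos_le_one _⟩, ?_, fun n hn => ?_⟩
  · rintro ⟨c, hc⟩
    have hc' : ∀ᵐ x ∂μ, Real.cos (1 / ((k : ℝ) + 1) * g x) = c := hc
    have := const_eq_one hpos hc'
    rw [this] at hc'
    exact hk hc'
  · have hTn := hT.iterate n
    exact corr_symmID hg (hg.comp hTn.measurable) (h n hn) _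
      (integral_comp_mp hTn (f := fun y => Real.cos (1 / ((k : ℝ) + 1) * g y))
        (Real.measurable_cos.comp (hg.const_mul _)))

end SymmID

/-! ### Extensions -/

section Factor

variable {X X' : Type*} [MeasurableSpace X] [MeasurableSpace X']

lemma factor_iterate {T : X → X} {T' : X' → X'} {π : X → X'} (h : ∀ x, π (T x) = T' (π x))
    (n : ℕ) (x : X) : π (T^[n] x) = T'^[n] (π x) := by
  induction n with
  | zero => rfl
  | succ n ih => rw [Function.iterate_succ_apply', Function.iterate_succ_apply', h, ih]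

lemma IsOverRecurrentFun.comp {μ : Measure X} {μ' : Measure X'} {T : X → X} {T' : X' → X'}
    {π : X → X'} (hπ : MeasurePreserving π μ μ') (h : ∀ x, π (T x) = T' (π x)) {f : X' → ℝ}
    (hT' : Measurable T') (hf : IsOverRecurrentFun μ' T' f) :
    IsOverRecurrentFun μ T fun x => f (π x) := by
  obtain ⟨hm, ⟨C, hC⟩, hc, hn⟩ := hf
  refine ⟨hm.comp hπ.measurable, ⟨C, fun x => hC _⟩, ?_, fun n hn1 => ?_⟩
  · rintro ⟨c, hcc⟩
    apply hc
    refine ⟨c, ?_⟩
    rw [← hπ.map_eq, ae_map_iff hπ.measurable.aemeasurable]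
    · exact hcc
    · exact hm (measurableSet_singleton c)
  · have e1 : ∫ x, f (π x) ∂μ = ∫ x, f x ∂μ' := integral_comp_mp hπ hm
    have e2 : ∫ x, f (π x) * f (π (T^[n] x)) ∂μ = ∫ x, f x * f (T'^[n] x) ∂μ' := by
      rw [← integral_comp_mp hπ (f := fun y => f y * f (T'^[n] y))
        (hm.mul (hm.comp (hT'.iterate n)))]
      simp only [factor_iterate h]
    rw [e1, e2]
    exact hn n hn1

end Factor

/-- **Over-recurrence in two-point extensions, Poisson suspensions, Gaussian and symmetric infinitely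
divisible systems, and in all their extensions.**

(1) For every skew product `(y, z) ↦ (S y, α y z)` on `Y × Z`, the two-point extension on
`Y × Z × Z` (for a point `Y`: the Cartesian square) is a system; it has a bounded over-recurrent
function if `Z` is not trivial, and an over-recurrent set if `Z` has a set of measure `1 / 2`.

(2) Poisson suspensions: `R` preserves the (possibly infinite) measure `ρ` on `E`, `N x` is a random
measure on `E` with `N (T x) = N x ∘ R⁻¹` and with the void probabilities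
`P (N C = 0) = exp (- ρ C)` of the Poisson process. Then `{N B = 0}` is an over-recurrent set for all
`B` with `0 < ρ B < ∞`.

(3) Gaussian systems: if `g` is not a.e. constant and the pairs `(g, g ∘ T ^ n)` are Gaussian then
`cos (g - ∫ g)` is over-recurrent.

(4) If `g` is not a.e. zero and the pairs `(g, g ∘ T ^ n)` are symmetric and infinitely divisible
(for instance symmetric stable) then `cos (t g)` is over-recurrent for some `t > 0`.

(5) A system has a bounded over-recurrent function if a factor of it has one. -/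
theorem result :
    (∀ (Y Z : Type) [MeasurableSpace Y] [MeasurableSpace Z] (μ : Measure Y) (ν : Measure Z)
      [IsProbabilityMeasure μ] [IsProbabilityMeasure ν] (S : Y → Y) (α : Y → Z → Z),
      MeasurePreserving S μ μ → (Measurable fun p : Y × Z => α p.1 p.2) →
      (∀ y, MeasurePreserving (α y) ν ν) →
        MeasurePreserving (twoPoint S α) (μ.prod (ν.prod ν)) (μ.prod (ν.prod ν)) ∧
        (∀ B : Set Z, MeasurableSet B → 0 < ν.real B → ν.real B < 1 →
          ∃ f : Y × Z × Z → ℝ, IsOverRecurrentFun (μ.prod (ν.prod ν)) (twoPoint S α) f) ∧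
        ∀ B : Set Z, MeasurableSet B → ν.real B = 1 / 2 →
          IsOverRecurrentSet (μ.prod (ν.prod ν)) (twoPoint S α) {p | p.2.1 ∈ B ↔ p.2.2 ∈ B}) ∧
    (∀ (X E : Type) [MeasurableSpace X] [MeasurableSpace E] (μ : Measure X)
      [IsProbabilityMeasure μ] (T : X → X) (ρ : Measure E) (R : E → E) (N : X → Measure E),
      MeasurePreserving T μ μ → MeasurePreserving R ρ ρ →
      (∀ C : Set E, MeasurableSet C → Measurable fun x => N x C) →
      (∀ x, ∀ C : Set E, MeasurableSet C → N (T x) C = N x (R ⁻¹' C)) →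
      (∀ C : Set E, MeasurableSet C → ρ C ≠ ⊤ →
        μ.real {x | N x C = 0} = Real.exp (-ρ.real C)) →
      ∀ B : Set E, MeasurableSet B → 0 < ρ B → ρ B ≠ ⊤ →
        IsOverRecurrentSet μ T {x | N x B = 0}) ∧
    (∀ (X : Type) [MeasurableSpace X] (μ : Measure X) [IsProbabilityMeasure μ] (T : X → X),
      MeasurePreserving T μ μ → ∀ g : X → ℝ, Measurable g → (¬ ∃ c : ℝ, ∀ᵐ x ∂μ, g x = c) →
      (∀ n : ℕ, 1 ≤ n → HasGaussianLaw (fun x => (g x, g (T^[n] x))) μ) →
        IsOverRecurrentFun μ T fun x => Real.cos (g x - ∫ y, g y ∂μ)) ∧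
    (∀ (X : Type) [MeasurableSpace X] (μ : Measure X) [IsProbabilityMeasure μ] (T : X → X),
      MeasurePreserving T μ μ → ∀ g : X → ℝ, Measurable g → (¬ ∀ᵐ x ∂μ, g x = 0) →
      (∀ n : ℕ, 1 ≤ n → IsSymmID μ g fun x => g (T^[n] x)) →
        ∃ t : ℝ, 0 < t ∧ IsOverRecurrentFun μ T fun x => Real.cos (t * g x)) ∧
    (∀ (X X' : Type) [MeasurableSpace X] [MeasurableSpace X'] (μ : Measure X) (μ' : Measure X')
      (T : X → X) (T' : X' → X') (π : X → X'), MeasurePreserving π μ μ' → Measurable T' →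
      (∀ x, π (T x) = T' (π x)) → ∀ f : X' → ℝ, IsOverRecurrentFun μ' T' f →
        IsOverRecurrentFun μ T fun x => f (π x)) := by
  refine ⟨?_, ?_, ?_, ?_, ?_⟩
  · intro Y Z _ _ μ ν _ _ S α hS hα hα'
    exact ⟨measurePreserving_twoPoint hS hα hα', fun B hB h0 h1 =>
      ⟨_, overRecurrent_pairFun hS hα hB h0 h1⟩, fun B hB h => overRecurrent_pairSet hS hα hα' hB h⟩
  · intro X E _ _ μ _ T ρ R N _ hR hNm hN hv B hB h0 h1
    exact overRecurrent_void hR hNm hN hv hB h0 h1
  · intro X _ μ _ T hT g hg hgc hG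
    exact overRecurrent_cos hT hg hgc hG
  · intro X _ μ _ T hT g hg hg0 h
    exact overRecurrent_symmID hT hg hg0 h
  · intro X X' _ _ μ μ' T T' π hπ hT' h f hf
    exact hf.comp hπ h hT'

end Pool.Agent.Results.MP_e8a8db_an.TwoPointGaussianPoisson
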